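import Pool.Agent.Helper52.SX.Goals

/-!
# SX, packet LPT: the loop
-/

namespace Pool.Agent.Helper79.SX

open Pool.Agent.Helper81.CC Pool.Agent.Helper78.DT Pool.Agent.Helper51.ZP
open Pool.Agent.Helper65.CS hiding st
open Pool.Agent.Helper52.SX
open scoped Classical

theorem ovr_nil {n : ℕ} (x : Fin n → Bool) : ovr [] x = x := by
  funext v
  simp [ovr]

theorem lt_two_pow_lg (N : ℕ) : N < 2 ^ lg N := by
  have h1 : N < 2 ^ (Nat.log 2 N + 1) := Nat.lt_pow_succ_log_self (by norm_num) N
  refine h1.trans_le (Nat.pow_le_pow_right (by norm_num) ?_)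
  unfold lg
  omega

theorem stT_succ (g : ℕ × Tup × ℕ → ℕ) (n : ℕ) (z : Tup) (N k : ℕ) :
    stT g n z N (k + 1) = stepT g (bb (lg N)) (MM N) n N (stT g n z N k) := by
  unfold stT
  rw [Function.iterate_succ_apply']

/-- **Packet LPT.** -/
theorem lpt (ste : SetStmt) (itr : ItrStmt) (nut : NutStmt) : LptStmt := by
  intro c w e g hg
  obtain ⟨L0, hL0⟩ := nut c w e
  refine ⟨L0, ?_⟩
  intro n N z hL hnN hz hr
  obtain ⟨h1M, h1N, h2, h3⟩ := hL0 N z.1.length hL hr
  have hs0 : stT g n z N 0 = ([], z) := rfl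
  have hb : 1 ≤ bb (lg N) := by
    unfold bb
    omega
  have key : ∀ j : ℕ, InvT n (w * lg N) N z (stT g n z N j) ∧
      fract n z ≤ fract n (stT g n z N j).2 + (j : ℝ) * (5 / (lg N : ℝ) ^ (c + 4)) := by
    intro j
    induction j with
    | zero =>
      rw [hs0]
      refine ⟨⟨List.nodup_nil, fun p hp => absurd hp List.not_mem_nil, hz, rfl, fun x => ?_⟩, ?_⟩
      · show tv x z = tv (ovr [] x) z
        rw [ovr_nil]
      · simp
    | succ j ih =>
      obtain ⟨i1, i3⟩ := ih
      have h := ste e (c + 4) g hg n N (w * lg N) N (bb (lg N)) (uu (lg N)) (c + 6) (MM N) z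
        (stT g n z N j) i1 hr h1M (by omega) hb h1N hnN h2
      obtain ⟨s1, s3, -⟩ := h
      rw [stT_succ]
      refine ⟨s1, ?_⟩
      rw [Nat.cast_add, Nat.cast_one, add_mul, one_mul]
      linarith
  have hal : ∀ j : ℕ, (al n (stT g n z N (j + 1)).1).length * 2 ^ (bb (lg N) + 1) +
      (al n (stT g n z N j).1).length ≤
        (al n (stT g n z N j).1).length * 2 ^ (bb (lg N) + 1) := by
    intro j
    obtain ⟨i1, -⟩ := key j
    have h := ste e (c + 4) g hg n N (w * lg N) N (bb (lg N)) (uu (lg N)) (c + 6) (MM N) z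
      (stT g n z N j) i1 hr h1M (by omega) hb h1N hnN h2
    rw [stT_succ]
    exact h.2.2
  have ha0 : (al n (stT g n z N 0).1).length < 2 ^ lg N := by
    have h1 : (al n (stT g n z N 0).1).length ≤ n := by
      unfold al
      refine (List.length_filter_le _ _).trans ?_
      rw [List.length_range]
    exact lt_of_le_of_lt (h1.trans hnN) (lt_two_pow_lg N)
  have hz0 := itr (fun j => (al n (stT g n z N j).1).length) (2 ^ (bb (lg N) + 1)) (lg N)
    (Nat.one_le_two_pow) (by unfold lg; omega) hal ha0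
  have hTT : TT (lg N) = 2 ^ (bb (lg N) + 1) * lg N := by
    unfold TT
    ring
  obtain ⟨k1, k3⟩ := key (TT (lg N))
  refine ⟨k1, ?_, ?_⟩
  · rw [hTT]
    exact List.eq_nil_of_length_eq_zero hz0
  · linarith

end Pool.Agent.Helper79.SX
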