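import Pool.Agent.Helper52.SX.Goals
import Pool.Agent.Helper79.CS.PR2
import Pool.Agent.Helper16.CS.PR1
import Pool.Agent.Helper89.CS.PR3

/-!
# SX, packet NUT: the numbers
-/

set_option autoImplicit false

namespace Pool.Agent.Helper79.SX.NUT

open Pool.Agent.Helper65.CS Pool.Agent.Helper78.DT Pool.Agent.Helper52.SX
open Pool.Agent.Helper79.CS

/-- `x = W (2 / 2^b) ≤ 2 w / L` -/
theorem x_le (w : ℕ) {L : ℕ} (hL : 1 ≤ L) :
    ((w * L : ℕ) : ℝ) * (2 / 2 ^ bb L) ≤ 2 * (w : ℝ) / L := by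
  have hb : (L : ℝ) ^ 2 ≤ 2 ^ bb L := by
    unfold bb
    have h1 : L < 2 ^ (Nat.log 2 L + 1) := Nat.lt_pow_succ_log_self (by norm_num) L
    rw [mul_comm 2, pow_mul]
    have h2 : (L : ℝ) ≤ 2 ^ (Nat.log 2 L + 1) := by exact_mod_cast h1.le
    exact pow_le_pow_left₀ (Nat.cast_nonneg _) h2 2
  have hL0 : (0 : ℝ) < L := by exact_mod_cast hL
  push_cast
  have h2 : (2 : ℝ) / 2 ^ bb L ≤ 2 / (L : ℝ) ^ 2 :=
    div_le_div_of_nonneg_left (by norm_num) (by positivity) hb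
  calc (w : ℝ) * L * (2 / 2 ^ bb L) ≤ (w : ℝ) * L * (2 / (L : ℝ) ^ 2) :=
        mul_le_mul_of_nonneg_left h2 (by positivity)
    _ = 2 * (w : ℝ) / L := by field_simp

theorem loss_le (c w e : ℕ) : ∃ L0 : ℕ, ∀ N r : ℕ, L0 ≤ lg N → r ^ (e + 1) ≤ lg N ^ e →
    lossT r (w * lg N) (bb (lg N)) (uu (lg N)) (c + 6) (MM N) N N ≤
      1 / (lg N : ℝ) ^ (c + 4) := by
  obtain ⟨L1, hL1⟩ := pow_le_two_pow (c + 5)
  refine ⟨L1 + 8 * (16 * w) ^ (c + 6) + (2 * w) ^ 2 + 32 * w + (c + 6) ^ (e + 1) + 3,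
    fun N r hN hr => ?_⟩
  set L := lg N with hLdef
  have hc1 : L1 ≤ L := by omega
  have hc2 : 8 * (16 * w) ^ (c + 6) ≤ L := by omega
  have hc3 : (2 * w) ^ 2 ≤ L := by omega
  have hc4 : 32 * w ≤ L := by omega
  have hc5 : (c + 6) ^ (e + 1) ≤ L := by omega
  have hL3 : 3 ≤ L := by omega
  have hL0 : (0 : ℝ) < L := by
    have : 0 < L := by omega
    exact_mod_cast this
  have hrL : r ≤ L := by
    have h1 : r ^ (e + 1) ≤ L ^ (e + 1) := hr.trans (Nat.pow_le_pow_right (by omega) (by omega))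
    exact (Nat.pow_le_pow_iff_left (by omega)).mp h1
  have hrc : r * (c + 6) ≤ L := by
    have h1 : (r * (c + 6)) ^ (e + 1) ≤ L ^ (e + 1) := by
      rw [mul_pow, pow_succ L e]
      exact Nat.mul_le_mul hr hc5
    exact (Nat.pow_le_pow_iff_left (by omega)).mp h1
  obtain ⟨hN1, hN2⟩ := basic hL3
  rw [← hLdef] at hN1 hN2
  have hk := hL1 L hc1
  have hrR : (r : ℝ) ≤ L := by exact_mod_cast hrL
  -- `L 2^(-L) ≤ 1 / (4 L^(c+4))`
  have hk' : (L : ℝ) * (1 / 2 ^ L) ≤ 1 / (4 * (L : ℝ) ^ (c + 4)) := by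
    rw [mul_one_div, div_le_div_iff₀ (by positivity) (by positivity)]
    have : (L : ℝ) * (4 * (L : ℝ) ^ (c + 4)) = 4 * (L : ℝ) ^ (c + 5) := by ring
    rw [this, one_mul]
    exact hk
  set x : ℝ := ((w * L : ℕ) : ℝ) * (2 / 2 ^ bb L) with hx
  have hx0 : 0 ≤ x := by positivity
  have hx1 : x ≤ 2 * (w : ℝ) / L := x_le w (by omega)
  have hN1R : (N : ℝ) ≤ 2 ^ L := by exact_mod_cast hN1.le
  -- first summand
  have hfirst : (N : ℝ) * x ^ uu L ≤ 1 / 2 ^ L := by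
    set l := Nat.log 2 L with hl
    have hl1 : 0 < l := Nat.log_pos (by norm_num) (by omega)
    have h2l : 2 ^ l ≤ L := Nat.pow_log_le_self 2 (by omega)
    have hu : 4 * L ≤ l * uu L := by
      unfold uu
      rw [← hl]
      have := Nat.lt_mul_div_succ (4 * L) hl1
      exact this.le
    have hx2 : x ^ 2 ≤ 1 / 2 ^ l := by
      have h1 : x ^ 2 ≤ (2 * (w : ℝ) / L) ^ 2 := pow_le_pow_left₀ hx0 hx1 2
      have h2 : (2 * (w : ℝ) / L) ^ 2 ≤ 1 / L := by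
        rw [div_pow, div_le_div_iff₀ (by positivity) hL0]
        have h3 : ((2 * (w : ℝ)) ^ 2) ≤ L := by exact_mod_cast hc3
        nlinarith
      have h3 : (1 : ℝ) / L ≤ 1 / 2 ^ l :=
        one_div_le_one_div_of_le (by positivity) (by exact_mod_cast h2l)
      linarith
    have hx3 : (x ^ uu L) ^ 2 ≤ (1 / 2 ^ (2 * L)) ^ 2 := by
      have h1 : (x ^ uu L) ^ 2 = (x ^ 2) ^ uu L := by
        rw [← pow_mul, ← pow_mul, mul_comm]
      rw [h1]
      calc (x ^ 2) ^ uu L ≤ (1 / 2 ^ l) ^ uu L := pow_le_pow_left₀ (by positivity) hx2 _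
        _ = 1 / 2 ^ (l * uu L) := by rw [one_div_pow, ← pow_mul]
        _ ≤ 1 / 2 ^ (4 * L) :=
          one_div_le_one_div_of_le (by positivity) (pow_le_pow_right₀ (by norm_num) hu)
        _ = (1 / 2 ^ (2 * L)) ^ 2 := by
          rw [one_div_pow, ← pow_mul]
          congr 2
          ring
    have hx4 : x ^ uu L ≤ 1 / 2 ^ (2 * L) :=
      (pow_le_pow_iff_left₀ (by positivity) (by positivity) (by norm_num)).mp hx3
    calc (N : ℝ) * x ^ uu L ≤ 2 ^ L * (1 / 2 ^ (2 * L)) :=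
          mul_le_mul hN1R hx4 (by positivity) (by positivity)
      _ = 1 / 2 ^ L := by
        rw [two_mul, pow_add]
        field_simp
  -- second summand
  have hsecond : ∑ u ∈ Finset.Ico (c + 6) (c + 6 + uu L),
      (8 * ((w * L : ℕ) : ℝ) * (2 / 2 ^ bb L)) ^ u ≤ 2 * (16 * (w : ℝ) / L) ^ (c + 6) := by
    have e : 8 * ((w * L : ℕ) : ℝ) * (2 / 2 ^ bb L) = 8 * x := by rw [hx]; ring
    rw [e]
    have hy : 8 * x ≤ 16 * (w : ℝ) / L := by
      have : 16 * (w : ℝ) / L = 8 * (2 * (w : ℝ) / L) := by ring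
      rw [this]
      linarith
    have hy2 : 16 * (w : ℝ) / L ≤ 1 / 2 := by
      rw [div_le_div_iff₀ hL0 (by norm_num)]
      have h3 : 32 * (w : ℝ) ≤ L := by exact_mod_cast hc4
      linarith
    have h1 := geom_tail (8 * x) (by positivity) (hy.trans hy2) (c + 6) (uu L)
    have h2 : (8 * x) ^ (c + 6) ≤ (16 * (w : ℝ) / L) ^ (c + 6) :=
      pow_le_pow_left₀ (by positivity) hy _
    linarith
  have hsecond' : (L : ℝ) * (2 * (16 * (w : ℝ) / L) ^ (c + 6)) ≤ 1 / (4 * (L : ℝ) ^ (c + 4)) := by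
    rw [div_pow, ← mul_div_assoc, ← mul_div_assoc, div_le_div_iff₀ (by positivity) (by positivity)]
    have h4 : 8 * (16 * (w : ℝ)) ^ (c + 6) ≤ L := by exact_mod_cast hc2
    have h5 : (L : ℝ) ^ (c + 6) = L ^ (c + 4) * L * L := by ring
    rw [h5]
    have h6 : (0 : ℝ) ≤ (L : ℝ) ^ (c + 4) * L := by positivity
    nlinarith [mul_le_mul_of_nonneg_left h4 h6]
  -- third summand
  have hthird : (2 : ℝ) ^ (r * (c + 6)) * ((N : ℝ) / MM N) ≤ 1 / 2 ^ L := by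
    have h1 : (2 : ℝ) ^ (19 * L) ≤ MM N := by
      unfold MM
      have : 2 ^ (19 * L) ≤ (4 * N + 4) ^ 19 := by
        rw [mul_comm, pow_mul]
        exact Nat.pow_le_pow_left hN2 19
      exact_mod_cast this
    have h2 : (N : ℝ) / MM N ≤ 2 ^ L / 2 ^ (19 * L) :=
      div_le_div₀ (by positivity) hN1R (by positivity) h1
    calc (2 : ℝ) ^ (r * (c + 6)) * ((N : ℝ) / MM N)
        ≤ 2 ^ (r * (c + 6)) * (2 ^ L / 2 ^ (19 * L)) :=
          mul_le_mul_of_nonneg_left h2 (by positivity)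
      _ ≤ 1 / 2 ^ L := by
        rw [← mul_div_assoc, div_le_div_iff₀ (by positivity) (by positivity), one_mul, ← pow_add,
          ← pow_add]
        exact pow_le_pow_right₀ (by norm_num) (by omega)
  have hL1' : (1 : ℝ) ≤ L := by
    have : 1 ≤ L := by omega
    exact_mod_cast this
  have hq : (0 : ℝ) ≤ 1 / 2 ^ L := by positivity
  have f1 : (r : ℝ) * ((N : ℝ) * x ^ uu L) ≤ 1 / (4 * (L : ℝ) ^ (c + 4)) := by
    refine le_trans ?_ hk'
    exact mul_le_mul hrR hfirst (by positivity) (by positivity)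
  have f2 : (r : ℝ) * ∑ u ∈ Finset.Ico (c + 6) (c + 6 + uu L),
      (8 * ((w * L : ℕ) : ℝ) * (2 / 2 ^ bb L)) ^ u ≤ 1 / (4 * (L : ℝ) ^ (c + 4)) := by
    refine le_trans ?_ hsecond'
    exact mul_le_mul hrR hsecond (Finset.sum_nonneg fun u _ => by positivity) (by positivity)
  have f3 : (2 : ℝ) ^ (r * (c + 6)) * ((N : ℝ) / MM N) ≤ 1 / (4 * (L : ℝ) ^ (c + 4)) := by
    refine hthird.trans (le_trans ?_ hk')
    nlinarith
  unfold lossT
  have hfinal : 1 / (4 * (L : ℝ) ^ (c + 4)) = 1 / 4 * (1 / (L : ℝ) ^ (c + 4)) := by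
    field_simp
  have hpos : (0 : ℝ) ≤ 1 / (L : ℝ) ^ (c + 4) := by positivity
  rw [mul_add]
  have f1' : (r : ℝ) * ((N : ℝ) * (((w * L : ℕ) : ℝ) * (2 / 2 ^ bb L)) ^ uu L) ≤
      1 / (4 * (L : ℝ) ^ (c + 4)) := f1
  linarith

/-- **Packet NUT.** -/
theorem nut : NutStmt := by
  intro c w e
  obtain ⟨A1, hA1⟩ := Pool.Agent.Helper16.CS.pr1 (c + 1)
  obtain ⟨A2, hA2⟩ := loss_le c w e
  obtain ⟨A3, hA3⟩ := Pool.Agent.Helper89.CS.pr3 c
  refine ⟨max A1 (max A2 A3), fun N r hN hr => ?_⟩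
  obtain ⟨h1, h2⟩ := hA1 N (le_trans (le_max_left _ _) hN)
  have h3 := hA2 N r (le_trans (le_trans (le_max_left _ _) (le_max_right _ _)) hN) hr
  obtain ⟨h4, -⟩ := hA3 N (le_trans (le_trans (le_max_right _ _) (le_max_right _ _)) hN)
  refine ⟨h1, ?_, h3, h4⟩
  have e : c + 1 + 5 + uu (lg N) = c + 6 + uu (lg N) := by ring
  rw [e] at h2
  exact h2

end Pool.Agent.Helper79.SX.NUT
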